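import Pool.Agent.H102R3.FR.Done

set_option autoImplicit false

/-!
# MP_82094e_pr, Q1: the susceptibility of the frog model on bounded degree graphs

Yes, with exponent `2` (which is optimal, by the cycle): for every `d` and every density
`lam > 0` there is `C` such that for all sequences of finite connected graphs of maximal degree
at most `d`, with any origins and `|V_n| → ∞`, the susceptibility is at most
`C * log² |V_n|` with probability tending to `1`.

Definitions (`Pool.Agent.H102R3.FR`, file `Pool/Agent/H102R3/FR/Stmts.lean`):
* `Om V` is the sample space `(V → ℕ × (ℕ × ℕ × V → V)) × (ℕ × V → V)`: for every vertex `v` the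
  number `(ω.1 v).1` of sleeping particles and, for particle number `i` of `v`, the choice
  `(ω.1 v).2 (i, k, x)` of its next vertex if it is at `x` after `k` steps; and the choices
  `ω.2 (k, x)` of the extra particle at the origin.
* `frog G lam` is the law of the model: all counts are Poisson(`lam`), every choice at `x` is
  a uniform neighbour of `x` (`nbr G x`), everything is independent.  So the trajectories
  `ptraj ω.1 v i` and `walk ω.2 o` are independent simple random walks from `v` and `o`.
* `Visited o τ ω v`: the vertex `v` is visited by an active particle if the lifetime is `τ`: the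
  extra particle visits the first `τ` positions of its walk, and every particle of a visited
  vertex is activated and visits the first `τ` positions of its walk.
* `susc o ω : ℕ∞` is the least `τ` such that all vertices are visited.

Proof idea.  If the visited set `A` is not everything, no particle of `A` leaves `A`.  Let
`h(x)` be the fraction of times `j < s`, `s ≍ log²|V|`, at which the walk from `x` has not left
`A`; its energy is small, so some level set `Θ = {x ∈ A : h(x) ≤ ℓ}` has
`|∂(A \ Θ)| ≤ 7 s^{-1/2} S_s(A)`, `S_j(A) = ∑_{x ∈ A} deg(x) P_x(exit A by time j)`; hence `A` can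
be encoded by a cut of few edges and the rooted set `Θ`.  If `S_τ(A) ≥ C |Θ|`, a union bound
works.  Otherwise, by reversibility and a pigeonhole over scales, walks from `Θ` stay in `A` up
to time `τ` with small average probability, so `Θ` contains few particles; this is excluded by a
Wald identity for the number of particles found outside a given set.
-/

open MeasureTheory ProbabilityTheory Filter Topology
open scoped ENNReal NNReal

namespace Pool.Agent.Results.MP_82094e_pr.LogSquared

open Pool.Agent.H102R3.FR

theorem result : ∀ (d : ℕ) (lam : ℝ≥0), 0 < lam → ∃ C : ℝ, 0 < C ∧
    ∀ (V : ℕ → Type) [∀ n, Fintype (V n)] [∀ n, DecidableEq (V n)]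
      [∀ n, MeasurableSpace (V n)] [∀ n, DiscreteMeasurableSpace (V n)]
      (G : ∀ n, SimpleGraph (V n)) [∀ n, DecidableRel (G n).Adj] (o : ∀ n, V n),
      (∀ n, (G n).Connected) → (∀ n x, (G n).degree x ≤ d) →
      Tendsto (fun n => Fintype.card (V n)) atTop atTop →
      Tendsto (fun n => (frog (G n) lam)
        {ω | susc (o n) ω ≤ (⌊C * Real.log (Fintype.card (V n)) ^ 2⌋₊ : ℕ∞)}) atTop (𝓝 1) :=
  mainProved

end Pool.Agent.Results.MP_82094e_pr.LogSquared
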